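import Pool.Agent.Helper14K9.SO.St
import Pool.Agent.Results.MP_db9079_lc.LocallyFiniteValues

/-!
# Project SO (MP_db9079_lc): relations between `K^n` and `K^m`
-/

set_option autoImplicit false

namespace Pool.Agent.Helper14K9.SO

open Function
open Pool.Agent.Y924.EL Pool.Agent.Y924.UF
open Pool.Agent.Results.MP_db9079_lc.LocallyFiniteValues

/-- the code `X ^ p + t Y ^ p` of a pair in `R`, where `X`, `Y` are the codes of the lists `x`, `y` -/
def CdS {p : ℕ} [Fact p.Prime] {n m : ℕ}
    (R : (Fin n → LaurentSeries (ZMod p)) → (Fin m → LaurentSeries (ZMod p)) → Prop) :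
    Set (LaurentSeries (ZMod p)) :=
  {z | ∃ x y, R x y ∧ z = (lcode p (List.ofFn x)) ^ p +
    HahnSeries.single (1 : ℤ) (1 : ZMod p) * (lcode p (List.ofFn y)) ^ p}

/-- [GEO] If `y ∈ LFV p R` with `x`, `b`, then `lcode y ∈ LFS p (CdS R)`: the point is
`X = lcode x`; `lcode` is additive and injective, and if `lcode z ∈ t ^ N O` then all `z_i` are in
`t ^ M O`, `M` going to infinity with `N` (the supports of `a ^ p` and `t c ^ p` are disjoint). The
codes are pairs in one way: `X ^ p + t Y ^ p = X' ^ p + t Y' ^ p` implies `X = X'`, `Y = Y'`. -/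
def S_GEO : Prop := ∀ (p : ℕ) [Fact p.Prime] (n m : ℕ)
  (R : (Fin n → LaurentSeries (ZMod p)) → (Fin m → LaurentSeries (ZMod p)) → Prop),
  (LFV p R).Infinite → (LFS p (CdS R)).Infinite

/-- [REL] the set of the codes is definable -/
def S_RELD : Prop := ∀ (p : ℕ) [Fact p.Prime] (P : Set (LaurentSeries (ZMod p))) (φ : Fm)
  (n m : ℕ) (v : ℕ → LaurentSeries (ZMod p)), ∃ (ψ : Fm) (w : ℕ → LaurentSeries (ZMod p)),
    DefP P ψ w = CdS (DRel p P φ n m v)

end Pool.Agent.Helper14K9.SO
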