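import Pool.Agent.Helper14K9.SO.Asm
import Pool.Agent.Helper14K9.SO.St2
import Pool.Agent.Helper12K9.SO.Fvc
import Pool.Agent.Helper12K9.SO.Trc
import Pool.Agent.Helper56K9.SO.Exi
import Pool.Agent.Helper56K9.SO.Ser
import Pool.Agent.Helper56K9.SO.Hs
import Pool.Agent.Helper90K9.SO.Ball
import Pool.Agent.Helper90K9.SO.Lam
import Pool.Agent.Helper90K9.SO.Cod2
import Pool.Agent.Helper90K9.SO.Enu
import Pool.Agent.Helper90K9.SO.Full

/-! # Project SO: all parts together (helper14) -/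

set_option autoImplicit false

namespace Pool.Agent.Helper14K9.SO

open Function
open Pool.Agent.Y924.EL Pool.Agent.Y924.UF
open Pool.Agent.Results.MP_db9079_lc.UniformFiniteness
open Pool.Agent.Results.MP_db9079_lc.LocallyFiniteValues

theorem bas_all : S_BAS :=
  Pool.Agent.Y924.UF.t_BAS Pool.Agent.Y43.UF.t_SEM1 Pool.Agent.Y182.UF.t_SEM2
    Pool.Agent.Y824.UF.t_SEM3 Pool.Agent.Y151.UF.t_EXR Pool.Agent.Y514.UF.t_REN
    (Pool.Agent.Y833.UF.t_CEQ code_all) (Pool.Agent.Y662.UF.t_CADD code_all)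
    (Pool.Agent.Y74.UF.t_CMUL code_all) Pool.Agent.Y606.UF.t_FIN
    (Pool.Agent.Y155.UF.t_FIN2 Pool.Agent.Y675.UF.t_ROOT Pool.Agent.Y606.UF.t_FIN)
    (Pool.Agent.Y748.UF.t_VAL Pool.Agent.Y675.UF.t_ROOT)

theorem val_all : S_VAL := Pool.Agent.Y748.UF.t_VAL Pool.Agent.Y675.UF.t_ROOT

theorem full_all : S_FULL2 :=
  Pool.Agent.Helper90K9.SO.full (Pool.Agent.Helper90K9.SO.ball Pool.Agent.Y675.UF.t_ROOT)
    Pool.Agent.Helper90K9.SO.lam Pool.Agent.Helper90K9.SO.cod2 Pool.Agent.Helper90K9.SO.enu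
    (Pool.Agent.Y155.UF.t_FIN2 Pool.Agent.Y675.UF.t_ROOT Pool.Agent.Y606.UF.t_FIN)

theorem exi_all : S_EXI :=
  Pool.Agent.Helper56K9.SO.exi
    (Pool.Agent.Helper56K9.SO.hs val_all Pool.Agent.Y15.UF.t_RES Pool.Agent.Y606.UF.t_FIN)
    Pool.Agent.Helper56K9.SO.ser val_all Pool.Agent.Y15.UF.t_RES Pool.Agent.Y606.UF.t_FIN

/-- the reduction, without hypotheses -/
theorem reduce_all (p : ℕ) [Fact p.Prime] (P : Set (LaurentSeries (ZMod p))) (φ : Fm)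
    (v0 : ℕ → LaurentSeries (ZMod p)) (h : (LFS p (DefP P φ v0)).Infinite) :
    ∃ F : ℕ → ℕ, Primrec F ∧ ∀ ψ : SF, ψ.fvN = ∅ → ψ.fvS = ∅ →
      ((∀ n A, Tr ψ n A) ↔ ∃ χ : Fm, χ.code = F ψ.code ∧ χ.fv = ∅ ∧
        ∀ v : ℕ → LaurentSeries (ZMod p), Sat P χ v) :=
  reduce Pool.Agent.Y686.UF.t_CLO for_
    (Pool.Agent.Helper12K9.SO.trc Pool.Agent.Y900.UF.t_REC
      (Pool.Agent.Y431.UF.t_CMPA Pool.Agent.Y151.UF.t_CMPB) Pool.Agent.Y151.UF.t_CMPB)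
    Pool.Agent.Helper12K9.SO.fvc
    (Pool.Agent.Helper12K9.SO.trs bas_all Pool.Agent.Y151.UF.t_EXR Pool.Agent.Y514.UF.t_REN)
    full_all exi_all Pool.Agent.Y151.UF.t_EXR Pool.Agent.Y514.UF.t_REN
    Pool.Agent.Y151.UF.t_CMPB Pool.Agent.Y988.UF.t_CINJ p P φ v0 h

end Pool.Agent.Helper14K9.SO
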