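import Pool.Agent.Helper14K9.SO.Calc

/-! # Project SO: the formulas exist (helper14) -/

set_option autoImplicit false

namespace Pool.Agent.Helper14K9.SO

open Function
open Pool.Agent.Y924.EL Pool.Agent.Y924.UF

section

variable {K : Type} [CommRing K] {P : Set K}

/-- pure relations with arguments `x_0, x_1, x_2` can be applied to terms -/
theorem pur3 {R : K → K → K → Prop} (hR : Rl P (fun v => R (v 0) (v 1) (v 2)))
    {f g h : (ℕ → K) → K} (hf : Tm P f) (hg : Tm P g) (hh : Tm P h) :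
    Rl P (fun v => R (f v) (g v) (h v)) :=
  Rl.sub3 (V := 0) (R := fun _ x y z => R x y z) hR (fun _ _ _ _ => rfl) hf hg hh

theorem pur2 {R : K → K → Prop} (hR : Rl P (fun v => R (v 0) (v 1)))
    {f g : (ℕ → K) → K} (hf : Tm P f) (hg : Tm P g) :
    Rl P (fun v => R (f v) (g v)) :=
  Rl.sub2 (V := 0) (R := fun _ x y => R x y) hR (fun _ _ _ _ => rfl) hf hg

theorem rl_OT (q : ℕ) {f g : (ℕ → K) → K} (hf : Tm P f) (hg : Tm P g) :
    Rl P (fun v => OT q (f v) (g v)) := by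
  refine pur2 (R := fun x y => OT q x y) ?_ hf hg
  refine Rl.exists' (R := fun v c => c ^ q = 1 + v 0 * v 1 ^ q) 2
    (Rl.eq ((Tm.var 2).pow q) (Tm.one.add ((Tm.var 0).mul ((Tm.var 1).pow q)))) fun v a c => ?_
  simp

theorem rl_Ex (p : ℕ) : ∀ k : ℕ, Rl P (fun v => Ex (v 0) p k (v 1))
  | 0 => Rl.eq (Tm.var 1) Tm.zero
  | k + 1 => by
    refine Rl.exists' (R := fun v w => ∃ y', Ex (v 0) p k y' ∧ w ^ p + v 0 * y' = v 1) 2 ?_
      fun v a c => by simp
    refine Rl.exists' (R := fun v y' => Ex (v 0) p k y' ∧ v 2 ^ p + v 0 * y' = v 1) 3 ?_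
      fun v a c => by simp
    exact (pur2 (R := fun x y => Ex x p k y) (rl_Ex p k) (Tm.var 0) (Tm.var 3)).and
      (Rl.eq (((Tm.var 2).pow p).add ((Tm.var 0).mul (Tm.var 3))) (Tm.var 1))

theorem rl_HH (p : ℕ) {f g : (ℕ → K) → K} (hf : Tm P f) (hg : Tm P g) :
    Rl P (fun v => HH (f v) p (g v)) := by
  refine pur2 (R := fun x y => HH x p y) ?_ hf hg
  refine Rl.exists' (R := fun v w => ∃ y', Ex (v 0) p (p - 1) y' ∧ w ^ p + v 0 * y' = v 1 + w) 2 ?_
    fun v a c => by simp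
  refine Rl.exists' (R := fun v y' => Ex (v 0) p (p - 1) y' ∧ v 2 ^ p + v 0 * y' = v 1 + v 2) 3 ?_
    fun v a c => by simp
  exact (pur2 (R := fun x y => Ex x p (p - 1) y) (rl_Ex p (p - 1)) (Tm.var 0) (Tm.var 3)).and
    (Rl.eq (((Tm.var 2).pow p).add ((Tm.var 0).mul (Tm.var 3))) ((Tm.var 1).add (Tm.var 2)))

theorem rl_Gd (p : ℕ) {f : (ℕ → K) → K} (hf : Tm P f) : Rl P (fun v => Gd p (f v)) := by
  refine pur2 (R := fun x _ => Gd p x) ?_ hf hf
  refine Rl.not ?_
  refine Rl.exists' (R := fun v s => ∃ c, c ^ (p - 1) = 1 ∧ c * s ^ (p + 1) = v 0) 1 ?_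
    fun v a c => by simp
  refine Rl.exists' (R := fun v c => c ^ (p - 1) = 1 ∧ c * v 1 ^ (p + 1) = v 0) 2 ?_
    fun v a c => by simp
  exact (Rl.eq ((Tm.var 2).pow (p - 1)) Tm.one).and
    (Rl.eq ((Tm.var 2).mul ((Tm.var 1).pow (p + 1))) (Tm.var 0))

end

section

variable {p : ℕ} [Fact p.Prime] {P : Set (LaurentSeries (ZMod p))}

theorem rl_Lt {f g h : (ℕ → LaurentSeries (ZMod p)) → LaurentSeries (ZMod p)}
    (hf : Tm P f) (hg : Tm P g) (hh : Tm P h) : Rl P (fun v => Lt p (f v) (g v) (h v)) := by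
  refine pur3 (R := fun x y z => Lt p x y z) ?_ hf hg hh
  refine Rl.not ?_
  refine Rl.exists' (R := fun v z => OT (p + 1) (v 0) z ∧ v 2 * z = v 1) 3 ?_
    fun v a c => by simp
  exact (rl_OT (p + 1) (Tm.var 0) (Tm.var 3)).and
    (Rl.eq ((Tm.var 2).mul (Tm.var 3)) (Tm.var 1))

variable (S : (ℕ → LaurentSeries (ZMod p)) → Set (LaurentSeries (ZMod p))) (V : ℕ)

/-- `S v` is a definable set depending on the parameters below `V` -/
def DS (P : Set (LaurentSeries (ZMod p))) : Prop :=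
  Rl P (fun v => v V ∈ S v) ∧ ∀ v j a, V ≤ j → S (update v j a) = S v

variable {S V}

theorem DS.mem (h : DS S V P) {f : (ℕ → LaurentSeries (ZMod p)) → LaurentSeries (ZMod p)}
    (hf : Tm P f) : Rl P (fun v => f v ∈ S v) :=
  Rl.sub1 (R := fun v x => x ∈ S v) h.1 (fun v j a hj => by simp only [h.2 v j a hj]) hf

/-- `FinC` of a definable family of sets -/
theorem rl_FinC (V : ℕ) {X : (ℕ → LaurentSeries (ZMod p)) → Set (LaurentSeries (ZMod p))}
    (hX : ∀ i, V ≤ i → Rl P (fun v => v i ∈ X v)) (hd : ∀ v j a, V ≤ j → X (update v j a) = X v)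
    (i : ℕ) (hi : i < V) : Rl P (fun v => FinC p (v i) (X v)) := by
  have n0 : i ≠ V := by omega
  have n1 : i ≠ V + 1 := by omega
  have n2 : i ≠ V + 2 := by omega
  have n3 : i ≠ V + 3 := by omega
  have n4 : i ≠ V + 4 := by omega
  have n5 : i ≠ V + 5 := by omega
  refine Rl.exists' (R := fun v b => ∃ c, b ≠ 0 ∧ c ≠ 0 ∧
    (∀ x, x ∈ X v → ∃ z, OT (p + 1) (v i) z ∧
      c * z = x) ∧ ∀ x y, x ∈ X v → y ∈ X v →
      (∃ z y', OT (p + 1) (v i) z ∧ b * z = y' ∧ y' + y = x) → x = y) V ?_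
    fun v a c => by simp [hd v V a (by omega), n0]
  refine Rl.exists' (R := fun v c => v V ≠ 0 ∧ c ≠ 0 ∧
    (∀ x, x ∈ X v → ∃ z, OT (p + 1) (v i) z ∧
      c * z = x) ∧ ∀ x y, x ∈ X v → y ∈ X v →
      (∃ z y', OT (p + 1) (v i) z ∧ v V * z = y' ∧ y' + y = x) → x = y) (V + 1) ?_
    fun v a c => by simp [hd v (V + 1) a (by omega), n1]
  refine (Rl.eq (Tm.var V) Tm.zero).not.and ((Rl.eq (Tm.var (V + 1)) Tm.zero).not.and
    (Rl.and ?_ ?_))
  · refine Rl.forall' (R := fun v x => x ∈ X v →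
      ∃ z, OT (p + 1) (v i) z ∧ v (V + 1) * z = x) (V + 2) ?_
      fun v a c => by simp [hd v (V + 2) a (by omega), n2]
    refine (hX _ (by omega)).imp ?_
    refine Rl.exists' (R := fun v z => OT (p + 1) (v i) z ∧ v (V + 1) * z = v (V + 2)) (V + 3) ?_
      fun v a c => by simp [n3]
    exact (rl_OT (p + 1) (Tm.var i) (Tm.var (V + 3))).and
      (Rl.eq ((Tm.var (V + 1)).mul (Tm.var (V + 3))) (Tm.var (V + 2)))
  · refine Rl.forall' (R := fun v x => ∀ y, x ∈ X v → y ∈ X v →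
      (∃ z y', OT (p + 1) (v i) z ∧ v V * z = y' ∧ y' + y = x) → x = y) (V + 2) ?_
      fun v a c => by simp [hd v (V + 2) a (by omega), n2]
    refine Rl.forall' (R := fun v y => v (V + 2) ∈ X v → y ∈ X v →
      (∃ z y', OT (p + 1) (v i) z ∧ v V * z = y' ∧ y' + y = v (V + 2)) →
      v (V + 2) = y) (V + 3) ?_
      fun v a c => by simp [hd v (V + 3) a (by omega), n3]
    refine (hX _ (by omega)).imp ((hX _ (by omega)).imp (Rl.imp ?_
      (Rl.eq (Tm.var _) (Tm.var _))))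
    refine Rl.exists' (R := fun v z => ∃ y', OT (p + 1) (v i) z ∧ v V * z = y' ∧
      y' + v (V + 3) = v (V + 2)) (V + 4) ?_ fun v a c => by simp [n4]
    refine Rl.exists' (R := fun v y' => OT (p + 1) (v i) (v (V + 4)) ∧
      v V * v (V + 4) = y' ∧ y' + v (V + 3) = v (V + 2)) (V + 5) ?_ fun v a c => by simp [n5]
    exact (rl_OT (p + 1) (Tm.var i) (Tm.var (V + 4))).and
      ((Rl.eq ((Tm.var V).mul (Tm.var (V + 4))) (Tm.var (V + 5))).and
        (Rl.eq ((Tm.var (V + 5)).add (Tm.var (V + 3))) (Tm.var (V + 2))))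

theorem DS.inF (h : DS S V P) {f g k : (ℕ → LaurentSeries (ZMod p)) → LaurentSeries (ZMod p)}
    (hf : Tm P f) (hg : Tm P g) (hk : Tm P k) :
    Rl P (fun v => InF p (S v) (f v) (g v) (k v)) := by
  have hS := h.2
  refine Rl.sub3 (R := fun v x y z => InF p (S v) x y z) (V := V) ?_
    (fun v j a hj => by simp only [h.2 v j a hj]) hf hg hk
  refine Rl.exists' (R := fun v x => OT (p + 1) (v V) (x * v (V + 1)) ∧
    x ^ p + v V * v (V + 2) ^ p ∈ S v ∧ FinC p (v V) (Vals p (S v) (v V) (v (V + 1)) x)) (V + 3) ?_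
    fun v a c => by simp [hS v (V + 3) a (by omega)]
  refine (rl_OT (p + 1) (Tm.var V) ((Tm.var (V + 3)).mul (Tm.var (V + 1)))).and
    ((h.mem (((Tm.var (V + 3)).pow p).add ((Tm.var V).mul ((Tm.var (V + 2)).pow p)))).and ?_)
  refine rl_FinC (V + 4) (X := fun v => Vals p (S v) (v V) (v (V + 1)) (v (V + 3)))
    (fun i hi => ?_) (fun v j a hj => ?_) V (by omega)
  · have m1 : V ≠ i + 1 := by omega
    have m2 : V + 1 ≠ i + 1 := by omega
    have m3 : V + 3 ≠ i + 1 := by omega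
    have m4 : V ≠ i + 2 := by omega
    have m5 : V + 1 ≠ i + 2 := by omega
    have m6 : V + 3 ≠ i + 2 := by omega
    refine Rl.exists' (R := fun v x' => (∃ z, OT (p + 1) (v V) z ∧
      v (V + 3) + v (V + 1) * z = x') ∧ x' ^ p + v V * v i ^ p ∈ S v) (i + 1) ?_
      fun v a c => by
        simp only [hS v (i + 1) a (by omega), update_of_ne m1, update_of_ne m2, update_of_ne m3,
          update_of_ne (show i ≠ i + 1 by omega)]
    refine Rl.and ?_ (h.mem (((Tm.var (i + 1)).pow p).add ((Tm.var V).mul ((Tm.var i).pow p))))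
    refine Rl.exists' (R := fun v z => OT (p + 1) (v V) z ∧
      v (V + 3) + v (V + 1) * z = v (i + 1)) (i + 2) ?_
      fun v a c => by
        simp only [update_of_ne m4, update_of_ne m5, update_of_ne m6,
          update_of_ne (show i + 1 ≠ i + 2 by omega)]
    exact (rl_OT (p + 1) (Tm.var V) (Tm.var (i + 2))).and (Rl.eq ((Tm.var (V + 3)).add
      ((Tm.var (V + 1)).mul (Tm.var (i + 2)))) (Tm.var (i + 1)))
  · show Vals p (S (update v j a)) (update v j a V) (update v j a (V + 1))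
      (update v j a (V + 3)) = Vals p (S v) (v V) (v (V + 1)) (v (V + 3))
    rw [hS v j a (by omega), update_of_ne (by omega), update_of_ne (by omega),
      update_of_ne (by omega)]

theorem DS.inH (h : DS S V P) {f g k : (ℕ → LaurentSeries (ZMod p)) → LaurentSeries (ZMod p)}
    (hf : Tm P f) (hg : Tm P g) (hk : Tm P k) :
    Rl P (fun v => InH p (S v) (f v) (g v) (k v)) := by
  have hS := h.2
  refine Rl.sub3 (R := fun v x y z => InH p (S v) x y z) (V := V) ?_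
    (fun v j a hj => by simp only [h.2 v j a hj]) hf hg hk
  refine Rl.forall' (R := fun v c => (∀ a, InF p (S v) (v V) (v (V + 1)) a →
    HH (v V) p (c * a) ∧ ∀ a', a * a' = 1 → HH (v V) p (c * a')) →
    HH (v V) p (c * v (V + 2))) (V + 3) ?_
    fun v a c => by simp [hS v (V + 3) a (by omega)]
  refine Rl.imp ?_ (rl_HH p (Tm.var V) ((Tm.var (V + 3)).mul (Tm.var (V + 2))))
  refine Rl.forall' (R := fun v a => InF p (S v) (v V) (v (V + 1)) a →
    HH (v V) p (v (V + 3) * a) ∧ ∀ a', a * a' = 1 → HH (v V) p (v (V + 3) * a')) (V + 4) ?_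
    fun v a c => by simp [hS v (V + 4) a (by omega)]
  refine (h.inF (Tm.var V) (Tm.var (V + 1)) (Tm.var (V + 4))).imp
    ((rl_HH p (Tm.var V) ((Tm.var (V + 3)).mul (Tm.var (V + 4)))).and ?_)
  refine Rl.forall' (R := fun v a' => v (V + 4) * a' = 1 → HH (v V) p (v (V + 3) * a')) (V + 5) ?_
    fun v a c => by simp
  exact (Rl.eq ((Tm.var (V + 4)).mul (Tm.var (V + 5))) Tm.one).imp
    (rl_HH p (Tm.var V) ((Tm.var (V + 3)).mul (Tm.var (V + 5))))

theorem DS.inQ (h : DS S V P) {f g k : (ℕ → LaurentSeries (ZMod p)) → LaurentSeries (ZMod p)}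
    (hf : Tm P f) (hg : Tm P g) (hk : Tm P k) :
    Rl P (fun v => InQ p (S v) (f v) (g v) (k v)) := by
  have hS := h.2
  refine Rl.sub3 (R := fun v x y z => InQ p (S v) x y z) (V := V) ?_
    (fun v j a hj => by simp only [h.2 v j a hj]) hf hg hk
  refine (Rl.eq (Tm.var (V + 2)) (Tm.var (V + 1))).not.and ?_
  refine Rl.exists' (R := fun v r => r ≠ 0 ∧ InH p (S v) (v V) r (v (V + 2)) ∧
    ∀ h, InH p (S v) (v V) r h → h ≠ 0 → Lt p (v V) h (v (V + 1) - v (V + 2))) (V + 3) ?_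
    fun v a c => by simp [hS v (V + 3) a (by omega)]
  refine (Rl.eq (Tm.var (V + 3)) Tm.zero).not.and ((h.inH (Tm.var V) (Tm.var (V + 3))
    (Tm.var (V + 2))).and ?_)
  refine Rl.forall' (R := fun v h => InH p (S v) (v V) (v (V + 3)) h → h ≠ 0 →
    Lt p (v V) h (v (V + 1) - v (V + 2))) (V + 4) ?_
    fun v a c => by simp [hS v (V + 4) a (by omega)]
  exact (h.inH (Tm.var V) (Tm.var (V + 3)) (Tm.var (V + 4))).imp
    ((Rl.eq (Tm.var (V + 4)) Tm.zero).not.imp (rl_Lt (Tm.var V) (Tm.var (V + 4))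
      ((Tm.var (V + 1)).sub (Tm.var (V + 2)))))

theorem DS.finC_X (h : DS S V P) :
    Rl P (fun v => FinC p (v V) {x | InX p (S v) (v V) (v (V + 1)) (v (V + 2)) x}) := by
  refine rl_FinC (V + 3) (X := fun v => {x | InX p (S v) (v V) (v (V + 1)) (v (V + 2)) x})
    (fun i _ => (h.inQ (Tm.var V) (Tm.var (V + 1)) (Tm.var i)).and
      (rl_Lt (Tm.var V) ((Tm.var (V + 1)).sub (Tm.var i)) ((Tm.var (V + 1)).sub (Tm.var (V + 2)))))
    (fun v j a hj => ?_) V (by omega)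
  show {x | InX p (S (update v j a)) (update v j a V) (update v j a (V + 1))
    (update v j a (V + 2)) x} = {x | InX p (S v) (v V) (v (V + 1)) (v (V + 2)) x}
  rw [h.2 v j a (by omega), update_of_ne (by omega), update_of_ne (by omega),
    update_of_ne (by omega)]

theorem DS.good (h : DS S V P) : Rl P (fun v => Good p (S v) (v V) (v (V + 1))) := by
  have hS := h.2
  have tO : ∀ {g : (ℕ → LaurentSeries (ZMod p)) → LaurentSeries (ZMod p)}, Tm P g →
      Rl P (fun v => OT (p + 1) (v V) (g v)) := fun hg => rl_OT (p + 1) (Tm.var V) hg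
  refine (rl_Gd p (Tm.var V)).and ((tO Tm.one).and (Rl.and ?_ (Rl.and ?_ (Rl.and ?_ (Rl.and ?_
    (Rl.and ?_ (Rl.and ?_ ?_)))))))
  · refine Rl.forall' (R := fun v x => ∀ y, OT (p + 1) (v V) x → OT (p + 1) (v V) y →
      OT (p + 1) (v V) (x * y)) (V + 2) ?_ fun v a c => by simp
    refine Rl.forall' (R := fun v y => OT (p + 1) (v V) (v (V + 2)) → OT (p + 1) (v V) y →
      OT (p + 1) (v V) (v (V + 2) * y)) (V + 3) ?_ fun v a c => by simp
    exact (tO (Tm.var _)).imp ((tO (Tm.var _)).imp (tO ((Tm.var _).mul (Tm.var _))))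
  · exact (rl_HH p (Tm.var V) Tm.one).not
  · refine Rl.forall' (R := fun v z => ∃ e, e ^ p = e ∧ HH (v V) p (z + e)) (V + 2) ?_
      fun v a c => by simp
    refine Rl.exists' (R := fun v e => e ^ p = e ∧ HH (v V) p (v (V + 2) + e)) (V + 3) ?_
      fun v a c => by simp
    exact (Rl.eq ((Tm.var (V + 3)).pow p) (Tm.var (V + 3))).and
      (rl_HH p (Tm.var V) ((Tm.var (V + 2)).add (Tm.var (V + 3))))
  · refine Rl.forall' (R := fun v g => ∀ g', InQ p (S v) (v V) (v (V + 1)) g →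
      InQ p (S v) (v V) (v (V + 1)) g' → ¬ Lt p (v V) (v (V + 1) - g) (v (V + 1) - g') →
      ¬ Lt p (v V) (v (V + 1) - g') (v (V + 1) - g) → g = g') (V + 2) ?_
      fun v a c => by simp [hS v (V + 2) a (by omega)]
    refine Rl.forall' (R := fun v g' => InQ p (S v) (v V) (v (V + 1)) (v (V + 2)) →
      InQ p (S v) (v V) (v (V + 1)) g' →
      ¬ Lt p (v V) (v (V + 1) - v (V + 2)) (v (V + 1) - g') →
      ¬ Lt p (v V) (v (V + 1) - g') (v (V + 1) - v (V + 2)) → v (V + 2) = g') (V + 3) ?_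
      fun v a c => by simp [hS v (V + 3) a (by omega)]
    exact (h.inQ (Tm.var _) (Tm.var _) (Tm.var _)).imp ((h.inQ (Tm.var _) (Tm.var _)
      (Tm.var _)).imp ((rl_Lt (Tm.var V) ((Tm.var _).sub (Tm.var _))
        ((Tm.var _).sub (Tm.var _))).not.imp ((rl_Lt (Tm.var V) ((Tm.var _).sub (Tm.var _))
        ((Tm.var _).sub (Tm.var _))).not.imp (Rl.eq (Tm.var _) (Tm.var _)))))
  · refine Rl.forall' (R := fun v g => InQ p (S v) (v V) (v (V + 1)) g →
      FinC p (v V) {x | InX p (S v) (v V) (v (V + 1)) g x}) (V + 2) ?_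
      fun v a c => by simp [hS v (V + 2) a (by omega)]
    exact (h.inQ (Tm.var _) (Tm.var _) (Tm.var _)).imp h.finC_X
  · refine Rl.exists' (R := fun v g => InQ p (S v) (v V) (v (V + 1)) g) (V + 2) ?_
      fun v a c => by simp [hS v (V + 2) a (by omega)]
    exact h.inQ (Tm.var _) (Tm.var _) (Tm.var _)
  · refine Rl.forall' (R := fun v g => InQ p (S v) (v V) (v (V + 1)) g →
      ∃ g', InQ p (S v) (v V) (v (V + 1)) g' ∧ Lt p (v V) (v (V + 1) - g) (v (V + 1) - g'))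
      (V + 2) ?_ fun v a c => by simp [hS v (V + 2) a (by omega)]
    refine (h.inQ (Tm.var _) (Tm.var _) (Tm.var _)).imp ?_
    refine Rl.exists' (R := fun v g' => InQ p (S v) (v V) (v (V + 1)) g' ∧
      Lt p (v V) (v (V + 1) - v (V + 2)) (v (V + 1) - g')) (V + 3) ?_
      fun v a c => by simp [hS v (V + 3) a (by omega)]
    exact (h.inQ (Tm.var _) (Tm.var _) (Tm.var _)).and (rl_Lt (Tm.var V)
      ((Tm.var _).sub (Tm.var _)) ((Tm.var _).sub (Tm.var _)))

end

theorem for_ : S_FOR := by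
  intro p _ P φ V hV hB
  have hS : ∀ (v : ℕ → LaurentSeries (ZMod p)) (j : ℕ) (a : LaurentSeries (ZMod p)), V ≤ j →
      DefP P φ (update v j a) = DefP P φ v := by
    intro v j a hj
    ext x
    refine sat_agree P φ hB _ _ fun i hi => ?_
    by_cases h0 : i = 0
    · subst h0
      rw [update_self, update_self]
    · rw [update_of_ne h0, update_of_ne h0, update_of_ne (by omega)]
  have hD : DS (fun v => DefP P φ v) V P := by
    refine ⟨?_, hS⟩
    have h1 : Rl P (fun v => Sat P φ v) := ⟨φ, fun _ => Iff.rfl⟩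
    exact h1.subst (Tm.var V) 0
  obtain ⟨X, hX⟩ : Rl P (fun v => InX p (DefP P φ v) (v V) (v (V + 1)) (v (V + 2)) (v 0)) :=
    (hD.inQ (Tm.var V) (Tm.var (V + 1)) (Tm.var 0)).and (rl_Lt (Tm.var V)
      ((Tm.var (V + 1)).sub (Tm.var 0)) ((Tm.var (V + 1)).sub (Tm.var (V + 2))))
  obtain ⟨Q, hQ⟩ := hD.inQ (Tm.var V) (Tm.var (V + 1)) (Tm.var (V + 2))
  obtain ⟨M, hM⟩ : Rl P (fun v => Me p (v V) (v (V + 1)) (v (V + 2)) (v 0)) := by
    refine Rl.exists' (R := fun v z => z * (v (V + 1) - v (V + 2)) = v 0 ∧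
      ¬ HH (v V) p z) (V + 3) ?_ fun v a c => by
        have h0 : (0 : ℕ) ≠ V + 3 := by omega
        simp [h0]
    exact (Rl.eq ((Tm.var (V + 3)).mul ((Tm.var (V + 1)).sub (Tm.var (V + 2))))
      (Tm.var 0)).and (rl_HH p (Tm.var V) (Tm.var (V + 3))).not
  obtain ⟨G, hG⟩ := hD.good
  exact ⟨X, Q, M, G, fun v => ⟨hX v, hQ v, hM v⟩, hG⟩

end Pool.Agent.Helper14K9.SO
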