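import Pool.Agent.Helper14K9.SO.Calc
import Pool.Agent.Helper14K9.SO.St2

/-! # Project SO: definability of the set of codes (helper14) -/

set_option autoImplicit false

namespace Pool.Agent.Helper14K9.SO

open Function
open Pool.Agent.Y924.EL Pool.Agent.Y924.UF
open Pool.Agent.Results.MP_db9079_lc.LocallyFiniteValues

theorem tm_cdl {K : Type} [CommRing K] {P : Set K} (q T : ℕ) : ∀ l : List ℕ,
    Tm P (fun v => Pool.Agent.R794.FP.cdl q (v T) (l.map v))
  | [] => Tm.zero
  | a :: l => ((Tm.var a).pow q).add ((Tm.var T).mul ((tm_cdl q T l).pow q))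

theorem ofFn_eq {K : Type} (n k : ℕ) (w : ℕ → K) :
    List.ofFn (fun i : Fin n => w (k + i)) = ((List.range n).map (k + ·)).map w := by
  apply List.ext_getElem
  · simp
  · intro i h1 h2
    simp

theorem reld : S_RELD := by
  intro p _ P φ n m v
  obtain ⟨V0, hV0⟩ := Pool.Agent.Y686.UF.t_CLO.1 φ
  obtain ⟨N, hN⟩ : ∃ N, N = V0 + n + m + 2 := ⟨_, rfl⟩
  have hφ : Below (V0 + 1) φ := hV0 _ (by omega)
  have h1 : Rl P (fun w => Sat P φ (w ∘ Nat.succ) ∧ w 0 =
      (Pool.Agent.R794.FP.cdl p (w N) (((List.range n).map (1 + ·)).map w)) ^ p + w N *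
      (Pool.Agent.R794.FP.cdl p (w N) (((List.range m).map ((1 + n) + ·)).map w)) ^ p) := by
    refine Rl.and ⟨ren Nat.succ φ, fun w =>
      Pool.Agent.Y514.UF.t_REN.1 _ P Nat.succ Nat.succ_injective φ w⟩ (Rl.eq (Tm.var 0)
      (((tm_cdl p N _).pow p).add ((Tm.var N).mul ((tm_cdl p N _).pow p))))
  obtain ⟨χ, hχ⟩ := h1
  set w0 : ℕ → LaurentSeries (ZMod p) :=
    fun j => if j = N then HahnSeries.single (1 : ℤ) (1 : ZMod p) else v (j - 1) with hw0
  refine ⟨exR 1 (n + m) χ, w0, ?_⟩
  ext z
  simp only [DefP, CdS, Set.mem_ofPred_eq]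
  refine (Pool.Agent.Y151.UF.t_EXR _ P 1 (n + m) χ _).trans ?_
  simp only [hχ]
  constructor
  · rintro ⟨w, h2, h3, h4⟩
    have hN' : w N = HahnSeries.single (1 : ℤ) (1 : ZMod p) := by
      rw [h2 N (by omega), update_of_ne (by omega), hw0]
      simp
    refine ⟨fun i => w (1 + i), fun i => w ((1 + n) + i), ?_, ?_⟩
    · unfold DRel
      refine (sat_agree P φ hφ _ _ fun i hi => ?_).1 h3
      show w (i + 1) = _
      by_cases c1 : i < n
      · rw [dif_pos c1, add_comm]
      · rw [dif_neg c1]
        by_cases c2 : i - n < m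
        · rw [dif_pos c2]
          congr 1
          show i + 1 = 1 + n + (i - n)
          omega
        · rw [dif_neg c2, h2 (i + 1) (by omega), update_of_ne (by omega), hw0]
          simp only
          rw [if_neg (by omega)]
          simp
    · have h5 := h2 0 (by omega)
      rw [update_self] at h5
      rw [← h5, h4, hN', lcode_eq, lcode_eq, ofFn_eq, ofFn_eq]
  · rintro ⟨x, y, h2, rfl⟩
    set z := (lcode p (List.ofFn x)) ^ p +
      HahnSeries.single (1 : ℤ) (1 : ZMod p) * (lcode p (List.ofFn y)) ^ p with hz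
    set w : ℕ → LaurentSeries (ZMod p) := fun j => if j = 0 then z else
      if h : j - 1 < n then x ⟨j - 1, h⟩ else if h' : j - 1 - n < m then y ⟨j - 1 - n, h'⟩ else
      w0 j with hw
    have hN' : w N = HahnSeries.single (1 : ℤ) (1 : ZMod p) := by
      rw [hw]
      simp only
      rw [if_neg (by omega), dif_neg (by omega), dif_neg (by omega), hw0]
      simp
    refine ⟨w, fun j hj => ?_, ?_, ?_⟩
    · rcases Nat.eq_zero_or_pos j with rfl | h0
      · simp [hw]
      · rw [update_of_ne (by omega), hw]
        simp only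
        rw [if_neg (by omega), dif_neg (by omega), dif_neg (by omega)]
    · unfold DRel at h2
      refine (sat_agree P φ hφ _ _ fun i hi => ?_).2 h2
      show w (i + 1) = _
      rw [hw]
      simp only [Nat.add_sub_cancel, Nat.add_eq_zero_iff, one_ne_zero, and_false, if_false]
      by_cases c1 : i < n
      · rw [dif_pos c1, dif_pos c1]
      · rw [dif_neg c1, dif_neg c1]
        by_cases c2 : i - n < m
        · rw [dif_pos c2, dif_pos c2]
        · rw [dif_neg c2, dif_neg c2, hw0]
          simp only [Nat.add_sub_cancel]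
          rw [if_neg (by omega)]
    · have h5 : w 0 = z := by simp [hw]
      have hx : x = fun i : Fin n => w (1 + i) := by
        funext i
        have hi := i.2
        rw [hw]
        simp only
        rw [if_neg (by omega), dif_pos (by omega)]
        congr 1
        ext
        simp
      have hy : y = fun i : Fin m => w ((1 + n) + i) := by
        funext i
        have hi := i.2
        rw [hw]
        simp only
        rw [if_neg (by omega), dif_neg (by omega), dif_pos (by omega)]
        congr 1
        ext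
        show (i : ℕ) = 1 + n + i - 1 - n
        omega
      rw [h5, hN', ← ofFn_eq, ← ofFn_eq, ← hx, ← hy, hz, lcode_eq, lcode_eq]

end Pool.Agent.Helper14K9.SO
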