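import Pool.Agent.Helper14K9.SO.For
import Pool.Agent.Helper12K9.SO.Trs

/-! # Project SO: assembly (helper14) -/

set_option autoImplicit false

namespace Pool.Agent.Helper14K9.SO

open Function
open Pool.Agent.Y924.EL Pool.Agent.Y924.UF

/-- injectivity of the codes -/
def S_CINJ' : Prop := ∀ φ ψ : Fm, φ.code = ψ.code → φ = ψ

/-- the reduction, for one set of codes with infinitely many locally finite values -/
theorem reduce (hCLO : S_CLO) (hFOR : S_FOR) (hTRC : S_TRC) (hFVC : S_FVC) (hTRS : S_TRS)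
    (hFULL : S_FULL2) (hEXI : S_EXI) (hEXR : S_EXR) (hREN : S_REN) (hCMPB : S_CMPB)
    (hCINJ : S_CINJ')
    (p : ℕ) [Fact p.Prime] (P : Set (LaurentSeries (ZMod p))) (φ : Fm)
    (v0 : ℕ → LaurentSeries (ZMod p)) (h : (LFS p (DefP P φ v0)).Infinite) :
    ∃ F : ℕ → ℕ, Primrec F ∧ ∀ ψ : SF, ψ.fvN = ∅ → ψ.fvS = ∅ →
      ((∀ n A, Tr ψ n A) ↔ ∃ χ : Fm, χ.code = F ψ.code ∧ χ.fv = ∅ ∧
        ∀ v : ℕ → LaurentSeries (ZMod p), Sat P χ v) := by
  obtain ⟨V0, hV0⟩ := hCLO.1 φ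
  obtain ⟨V, hV⟩ : ∃ V, V = V0 + 1 := ⟨_, rfl⟩
  have hV1 : 1 ≤ V := by omega
  have hφ : Below V φ := hV0 V (by omega)
  obtain ⟨X, Q, M, G, hM, hG⟩ := hFOR p P φ V hV1 hφ
  obtain ⟨W1, hW1⟩ := hCLO.1 X
  obtain ⟨W2, hW2⟩ := hCLO.1 Q
  obtain ⟨W3, hW3⟩ := hCLO.1 M
  obtain ⟨W4, hW4⟩ := hCLO.1 G
  obtain ⟨W, hW⟩ : ∃ W, W = V + 3 + W1 + W2 + W3 + W4 := ⟨_, rfl⟩
  have bX : Below W X := hW1 W (by omega)
  have bQ : Below W Q := hW2 W (by omega)
  have bM : Below W M := hW3 W (by omega)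
  have bG : Below W G := hW4 W (by omega)
  obtain ⟨F0, hF0, hF1⟩ := hTRC p W (V + 2) X Q M
  have agree : ∀ (u u' : ℕ → LaurentSeries (ZMod p)), (∀ j, 1 ≤ j → j < V → u j = u' j) →
      DefP P φ u = DefP P φ u' := by
    intro u u' huu
    ext x
    simp only [DefP, Set.mem_ofPred_eq]
    refine sat_agree P φ hφ _ _ fun i hi => ?_
    rcases Nat.eq_zero_or_pos i with rfl | h0
    · simp
    · rw [update_of_ne (by omega), update_of_ne (by omega)]
      exact huu i h0 hi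
  set body : SF → Fm := fun ψ => .and (bR W 0 G) (trS p W (V + 2) X Q M ψ) with hbody
  set N' : ℕ → ℕ := fun c => Nat.pair 6 (Nat.pair (bR W 0 G).code (F0 c)) with hN'
  have hN'p : Primrec N' :=
    Primrec₂.natPair.comp (Primrec.const _) (Primrec₂.natPair.comp (Primrec.const _) hF0)
  have hNN : Primrec fun c => Nat.pair (N' c + (101 + W)) (N' c) :=
    Primrec₂.natPair.comp (Primrec.nat_add.comp hN'p (Primrec.const _)) hN'p
  have hcode : ∀ ψ : SF, (body ψ).code = N' ψ.code := by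
    intro ψ
    simp only [hbody, hN', Fm.code, hF1]
  refine ⟨fun c => exRc 0 (N' c + (101 + W)) (N' c), ?_, fun ψ hψ1 hψ2 => ?_⟩
  · refine (hFVC.2.comp hNN).of_eq fun c => ?_
    simp
  have key : ∀ w : ℕ → LaurentSeries (ZMod p), Sat P (body ψ) w →
      ∀ n A, Tr ψ n A := by
    rintro w ⟨hw1, hw2⟩ n A
    have hg : Good p (DefP P φ (w ∘ sgB W 0)) ((w ∘ sgB W 0) V) ((w ∘ sgB W 0) (V + 1)) := by
      rw [← hG]
      exact (Pool.Agent.Helper12K9.SO.sat_bR P hREN W 0 G w).1 hw1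
    obtain ⟨e, he⟩ := hFULL p _ _ _ hg
    refine (hTRS p P φ V W X Q M hV1 hφ (by omega) bX bQ bM hM _ e he ψ w n A ?_ ?_ ?_).1 hw2
    · intro j hj _
      show w (100 + j) = w (sgB W 0 j)
      rw [Pool.Agent.Helper12K9.SO.sgB_of_ne W 0 j (by omega)]
      simp
    · intro i hi
      rw [hψ1] at hi
      simp at hi
    · intro i hi
      rw [hψ2] at hi
      simp at hi
  constructor
  · intro hT
    refine ⟨exR 0 (N' ψ.code + (101 + W)) (body ψ), ?_, ?_, fun v => ?_⟩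
    · rw [hCMPB.1, hcode]
    · exact hFVC.1 _ _ (by rw [hcode]; omega)
    · rw [hEXR]
      obtain ⟨s, hs⟩ := hEXI p _ h
      set u0 : ℕ → LaurentSeries (ZMod p) :=
        update (update v0 V (HahnSeries.single (1 : ℤ) (1 : ZMod p))) (V + 1) s with hu0
      set w : ℕ → LaurentSeries (ZMod p) := fun j =>
        if 101 ≤ j ∧ j < 100 + W then u0 (j - 100) else v j with hw
      refine ⟨w, fun j hj => ?_, ?_⟩
      · rw [hw]
        simp only
        rw [if_neg (by omega)]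
      have hwu : ∀ j, 1 ≤ j → j < W → (w ∘ sgB W 0) j = u0 j := by
        intro j hj hj'
        show w (sgB W 0 j) = u0 j
        rw [Pool.Agent.Helper12K9.SO.sgB_of_ne W 0 j (by omega)]
        rw [hw]
        simp only
        rw [if_pos (by omega)]
        congr 1
        omega
      have hD : DefP P φ (w ∘ sgB W 0) = DefP P φ v0 := by
        refine agree _ _ fun j hj hj' => ?_
        rw [hwu j hj (by omega), hu0, update_of_ne (by omega), update_of_ne (by omega)]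
      have hV' : (w ∘ sgB W 0) V = HahnSeries.single (1 : ℤ) (1 : ZMod p) := by
        rw [hwu V hV1 (by omega), hu0, update_of_ne (by omega), update_self]
      have hV'' : (w ∘ sgB W 0) (V + 1) = s := by
        rw [hwu (V + 1) (by omega) (by omega), hu0, update_self]
      have hg : Good p (DefP P φ (w ∘ sgB W 0)) ((w ∘ sgB W 0) V) ((w ∘ sgB W 0) (V + 1)) := by
        rw [hD, hV', hV'']
        exact hs
      obtain ⟨e, he⟩ := hFULL p _ _ _ hg
      refine ⟨(Pool.Agent.Helper12K9.SO.sat_bR P hREN W 0 G w).2 ((hG _).2 hg), ?_⟩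
      refine (hTRS p P φ V W X Q M hV1 hφ (by omega) bX bQ bM hM _ e he ψ w (fun _ => 0)
        (fun _ => ∅) ?_ ?_ ?_).2 (hT _ _)
      · intro j hj _
        show w (100 + j) = w (sgB W 0 j)
        rw [Pool.Agent.Helper12K9.SO.sgB_of_ne W 0 j (by omega)]
        simp
      · intro i hi
        rw [hψ1] at hi
        simp at hi
      · intro i hi
        rw [hψ2] at hi
        simp at hi
  · rintro ⟨χ, h1, h2, h3⟩
    have h4 : χ = exR 0 (N' ψ.code + (101 + W)) (body ψ) := by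
      refine hCINJ _ _ ?_
      rw [h1, hCMPB.1, hcode]
    have h5 := h3 0
    rw [h4, hEXR] at h5
    obtain ⟨w, _, hw⟩ := h5
    exact key w hw

end Pool.Agent.Helper14K9.SO
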