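import Pool.Agent.Helper14K9.SO.St
import Pool.Agent.Y686.UF.Clo

/-! # Project SO: a calculus of definable relations on assignments (helper14) -/

set_option autoImplicit false

namespace Pool.Agent.Helper14K9.SO

open Function
open Pool.Agent.Y924.EL Pool.Agent.Y924.UF

section

variable {K : Type} [CommRing K] {P : Set K}

/-- definable relations on assignments -/
def Rl (P : Set K) (R : (ℕ → K) → Prop) : Prop := ∃ ψ : Fm, ∀ v, Sat P ψ v ↔ R v

theorem Rl.congr {R R' : (ℕ → K) → Prop} (h : ∀ v, R v ↔ R' v) (hR : Rl P R) : Rl P R' := by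
  obtain ⟨ψ, hψ⟩ := hR
  exact ⟨ψ, fun v => (hψ v).trans (h v)⟩

theorem Rl.not {R : (ℕ → K) → Prop} (hR : Rl P R) : Rl P (fun v => ¬ R v) := by
  obtain ⟨ψ, hψ⟩ := hR
  exact ⟨.neg ψ, fun v => not_congr (hψ v)⟩

theorem Rl.and {R R' : (ℕ → K) → Prop} (hR : Rl P R) (hR' : Rl P R') :
    Rl P (fun v => R v ∧ R' v) := by
  obtain ⟨ψ, hψ⟩ := hR
  obtain ⟨χ, hχ⟩ := hR'
  exact ⟨.and ψ χ, fun v => and_congr (hψ v) (hχ v)⟩

theorem Rl.imp {R R' : (ℕ → K) → Prop} (hR : Rl P R) (hR' : Rl P R') :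
    Rl P (fun v => R v → R' v) :=
  (hR.and hR'.not).not.congr fun v => by tauto

theorem Rl.ex (i : ℕ) {R : (ℕ → K) → Prop} (hR : Rl P R) :
    Rl P (fun v => ∃ a, R (update v i a)) := by
  obtain ⟨ψ, hψ⟩ := hR
  exact ⟨.ex i ψ, fun v => exists_congr fun a => hψ _⟩

/-- existential quantifier over an argument -/
theorem Rl.exists' (i : ℕ) {R : (ℕ → K) → K → Prop} (hR : Rl P (fun v => R v (v i)))
    (hi : ∀ v a c, R (update v i a) c ↔ R v c) : Rl P (fun v => ∃ c, R v c) :=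
  (hR.ex i).congr fun v => exists_congr fun a => by rw [update_self]; exact hi v a a

theorem Rl.forall' (i : ℕ) {R : (ℕ → K) → K → Prop} (hR : Rl P (fun v => R v (v i)))
    (hi : ∀ v a c, R (update v i a) c ↔ R v c) : Rl P (fun v => ∀ c, R v c) := by
  refine (Rl.exists' (R := fun v c => ¬ R v c) i hR.not fun v a c => not_congr (hi v a c)).not.congr
    fun v => ?_
  push Not
  rfl

theorem fresh {R : (ℕ → K) → Prop} (hR : Rl P R) :
    ∃ N, ∀ j, N ≤ j → ∀ v a, (R (update v j a) ↔ R v) := by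
  obtain ⟨ψ, hψ⟩ := hR
  obtain ⟨V, hV⟩ := Pool.Agent.Y686.UF.t_CLO.1 ψ
  refine ⟨V, fun j hj v a => ?_⟩
  rw [← hψ, ← hψ]
  refine sat_agree P ψ (hV V le_rfl) _ _ fun i hi => ?_
  rw [update_of_ne (by omega)]

/-- definable terms -/
def Tm (P : Set K) (f : (ℕ → K) → K) : Prop :=
  ∃ N, ∀ j, N ≤ j → Rl P (fun v => f v = v j) ∧ ∀ v a, f (update v j a) = f v

theorem eqR (i j : ℕ) : Rl P (fun v => v i = v j) := ⟨.eq i j, fun _ => Iff.rfl⟩

theorem Tm.var (i : ℕ) : Tm P (fun v => v i) :=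
  ⟨i + 1, fun j hj => ⟨eqR i j, fun v a => update_of_ne (by omega) _ _⟩⟩

theorem Rl.subst {R : (ℕ → K) → Prop} {f : (ℕ → K) → K} (hR : Rl P R) (hf : Tm P f) (i : ℕ) :
    Rl P (fun v => R (update v i (f v))) := by
  obtain ⟨N, hN⟩ := fresh hR
  obtain ⟨M, hM⟩ := hf
  obtain ⟨j, hj⟩ : ∃ j, j = N + M + i + 1 := ⟨_, rfl⟩
  have h1 : Rl P (fun w => f w = w j ∧ ∃ b, (update w i b i = update w i b j ∧
      R (update w i b))) :=
    ((hM j (by omega)).1).and (((eqR i j).and hR).ex i)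
  refine (h1.ex j).congr fun v => ?_
  have hij : i ≠ j := by omega
  have key : ∀ a, R (update (update v j a) i a) ↔ R (update v i a) := by
    intro a
    rw [update_comm hij.symm]
    exact hN j (by omega) _ _
  constructor
  · rintro ⟨a, h2, b, h3, h4⟩
    rw [(hM j (by omega)).2, update_self] at h2
    rw [update_self, update_of_ne hij.symm, update_self] at h3
    rw [h3] at h4
    rw [h2]
    exact (key a).1 h4
  · intro h2
    refine ⟨f v, ?_, f v, ?_, (key _).2 h2⟩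
    · rw [(hM j (by omega)).2, update_self]
    · rw [update_self, update_of_ne hij.symm, update_self]

/-- substitution of terms for three arguments -/
theorem Rl.sub3 {V : ℕ} {R : (ℕ → K) → K → K → K → Prop}
    (hR : Rl P (fun v => R v (v V) (v (V + 1)) (v (V + 2))))
    (hd : ∀ v j a, V ≤ j → R (update v j a) = R v) {f g h : (ℕ → K) → K}
    (hf : Tm P f) (hg : Tm P g) (hh : Tm P h) : Rl P (fun v => R v (f v) (g v) (h v)) := by
  obtain ⟨N1, h1⟩ := id hf
  obtain ⟨N2, h2⟩ := id hg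
  obtain ⟨N3, h3⟩ := id hh
  obtain ⟨J, hJ⟩ : ∃ J, J = V + N1 + N2 + N3 + 3 := ⟨_, rfl⟩
  have e1 : Rl P (fun v => R v (v J) (v (J + 1)) (v (J + 2))) := by
    refine (((hR.subst (Tm.var (J + 2)) (V + 2)).subst (Tm.var (J + 1)) (V + 1)).subst
      (Tm.var J) V).congr fun v => ?_
    rw [hd _ _ _ (by omega), hd _ _ _ (by omega), hd _ _ _ (by omega)]
    have a1 : (V : ℕ) ≠ V + 1 := by omega
    have a2 : (V : ℕ) ≠ V + 2 := by omega
    have a3 : (V + 1 : ℕ) ≠ V + 2 := by omega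
    have a4 : (J + 1 : ℕ) ≠ V := by omega
    have a5 : (J + 2 : ℕ) ≠ V := by omega
    have a6 : (J + 2 : ℕ) ≠ V + 1 := by omega
    simp only [update_self, update_of_ne a1, update_of_ne a2, update_of_ne a3,
      update_of_ne a4, update_of_ne a5, update_of_ne a6, update_of_ne a1.symm,
      update_of_ne a2.symm, update_of_ne a3.symm]
  refine (((e1.subst hh (J + 2)).subst hg (J + 1)).subst hf J).congr fun v => ?_
  rw [hd _ _ _ (by omega), hd _ _ _ (by omega), hd _ _ _ (by omega)]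
  have a1 : (J : ℕ) ≠ J + 1 := by omega
  have a2 : (J : ℕ) ≠ J + 2 := by omega
  have a3 : (J + 1 : ℕ) ≠ J + 2 := by omega
  simp only [update_self, update_of_ne a1, update_of_ne a2, update_of_ne a3,
    (h2 J (by omega)).2, (h3 J (by omega)).2, (h3 (J + 1) (by omega)).2]

theorem Rl.sub2 {V : ℕ} {R : (ℕ → K) → K → K → Prop}
    (hR : Rl P (fun v => R v (v V) (v (V + 1))))
    (hd : ∀ v j a, V ≤ j → R (update v j a) = R v) {f g : (ℕ → K) → K}
    (hf : Tm P f) (hg : Tm P g) : Rl P (fun v => R v (f v) (g v)) :=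
  Rl.sub3 (R := fun v x y _ => R v x y) hR (fun v j a hj => by simp only [hd v j a hj]) hf hg hg

theorem Rl.sub1 {V : ℕ} {R : (ℕ → K) → K → Prop}
    (hR : Rl P (fun v => R v (v V)))
    (hd : ∀ v j a, V ≤ j → R (update v j a) = R v) {f : (ℕ → K) → K}
    (hf : Tm P f) : Rl P (fun v => R v (f v)) :=
  Rl.sub3 (R := fun v x _ _ => R v x) hR (fun v j a hj => by simp only [hd v j a hj]) hf hf hf

/-- a definable operation applied to terms -/
theorem Tm.op {F : K → K → K} (hF : Rl P (fun v => F (v 0) (v 1) = v 2)) {f g : (ℕ → K) → K}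
    (hf : Tm P f) (hg : Tm P g) : Tm P (fun v => F (f v) (g v)) := by
  obtain ⟨N1, h1⟩ := id hf
  obtain ⟨N2, h2⟩ := id hg
  refine ⟨N1 + N2, fun j hj => ⟨?_, fun v a => ?_⟩⟩
  · exact Rl.sub3 (V := 0) (R := fun _ x y z => F x y = z) hF (fun _ _ _ _ => rfl) hf hg
      (Tm.var j)
  · show F (f (update v j a)) (g (update v j a)) = F (f v) (g v)
    rw [(h1 j (by omega)).2, (h2 j (by omega)).2]

theorem Tm.add {f g : (ℕ → K) → K} (hf : Tm P f) (hg : Tm P g) : Tm P (fun v => f v + g v) :=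
  Tm.op ⟨.add 0 1 2, fun _ => Iff.rfl⟩ hf hg

theorem Tm.mul {f g : (ℕ → K) → K} (hf : Tm P f) (hg : Tm P g) : Tm P (fun v => f v * g v) :=
  Tm.op ⟨.mul 0 1 2, fun _ => Iff.rfl⟩ hf hg

theorem Tm.sub {f g : (ℕ → K) → K} (hf : Tm P f) (hg : Tm P g) : Tm P (fun v => f v - g v) :=
  Tm.op (F := fun x y => x - y) ⟨.add 2 1 0, fun v => by
    show v 2 + v 1 = v 0 ↔ v 0 - v 1 = v 2
    rw [sub_eq_iff_eq_add]
    exact eq_comm⟩ hf hg

theorem Tm.one : Tm P (fun _ => (1 : K)) :=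
  ⟨0, fun j _ => ⟨⟨.one j, fun _ => eq_comm⟩, fun _ _ => rfl⟩⟩

theorem Tm.zero : Tm P (fun _ => (0 : K)) :=
  ⟨0, fun j _ => ⟨⟨.add j j j, fun v => by
    show v j + v j = v j ↔ (0 : K) = v j
    rw [add_eq_left]
    exact eq_comm⟩, fun _ _ => rfl⟩⟩

theorem Tm.pow {f : (ℕ → K) → K} (hf : Tm P f) : ∀ n : ℕ, Tm P (fun v => f v ^ n)
  | 0 => by simpa using (Tm.one : Tm P (fun _ => (1 : K)))
  | n + 1 => by
    have h := (Tm.pow hf n).mul hf
    simpa only [pow_succ] using h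

theorem Rl.eq {f g : (ℕ → K) → K} (hf : Tm P f) (hg : Tm P g) : Rl P (fun v => f v = g v) :=
  Rl.sub2 (V := 0) (R := fun _ x y => x = y) (eqR 0 1) (fun _ _ _ _ => rfl) hf hg

end

end Pool.Agent.Helper14K9.SO
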