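import Mathlib

/-!
# Second-order arithmetic

Formulas with number variables `x_0, x_1, ...` and set variables `X_0, X_1, ...`, their truth in the
standard model (the set variables range over ALL sets of natural numbers), their codes.
-/

set_option autoImplicit false

namespace Pool.Agent.Helper14K9.SO

open Function

/-- formulas of second-order arithmetic -/
inductive SF : Type
  | eq (i j : ℕ)
  | one (i : ℕ)
  | add (i j k : ℕ)
  | mul (i j k : ℕ)
  | mem (i j : ℕ)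
  | neg (ψ : SF)
  | and (ψ χ : SF)
  | exN (i : ℕ) (ψ : SF)
  | exS (i : ℕ) (ψ : SF)

/-- truth in the standard model: `x_i` is the number `n i`, `X_i` is the set `A i` -/
def Tr : SF → (ℕ → ℕ) → (ℕ → Set ℕ) → Prop
  | .eq i j, n, _ => n i = n j
  | .one i, n, _ => n i = 1
  | .add i j k, n, _ => n i + n j = n k
  | .mul i j k, n, _ => n i * n j = n k
  | .mem i j, n, A => n i ∈ A j
  | .neg ψ, n, A => ¬ Tr ψ n A
  | .and ψ χ, n, A => Tr ψ n A ∧ Tr χ n A
  | .exN i ψ, n, A => ∃ a : ℕ, Tr ψ (update n i a) A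
  | .exS i ψ, n, A => ∃ B : Set ℕ, Tr ψ n (update A i B)

/-- the code (Gödel number) of a formula -/
def SF.code : SF → ℕ
  | .eq i j => Nat.pair 0 (Nat.pair i j)
  | .one i => Nat.pair 1 i
  | .add i j k => Nat.pair 2 (Nat.pair i (Nat.pair j k))
  | .mul i j k => Nat.pair 3 (Nat.pair i (Nat.pair j k))
  | .mem i j => Nat.pair 4 (Nat.pair i j)
  | .neg ψ => Nat.pair 5 ψ.code
  | .and ψ χ => Nat.pair 6 (Nat.pair ψ.code χ.code)
  | .exN i ψ => Nat.pair 7 (Nat.pair (2 * i) ψ.code)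
  | .exS i ψ => Nat.pair 7 (Nat.pair (2 * i + 1) ψ.code)

/-- the free number variables -/
def SF.fvN : SF → Finset ℕ
  | .eq i j => {i, j}
  | .one i => {i}
  | .add i j k => {i, j, k}
  | .mul i j k => {i, j, k}
  | .mem i _ => {i}
  | .neg ψ => ψ.fvN
  | .and ψ χ => ψ.fvN ∪ χ.fvN
  | .exN i ψ => ψ.fvN.erase i
  | .exS _ ψ => ψ.fvN

/-- the free set variables -/
def SF.fvS : SF → Finset ℕ
  | .eq _ _ => ∅
  | .one _ => ∅
  | .add _ _ _ => ∅
  | .mul _ _ _ => ∅
  | .mem _ j => {j}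
  | .neg ψ => ψ.fvS
  | .and ψ χ => ψ.fvS ∪ χ.fvS
  | .exN _ ψ => ψ.fvS
  | .exS i ψ => ψ.fvS.erase i

end Pool.Agent.Helper14K9.SO
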