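import Pool.Agent.Helper14K9.SO.Defs
import Pool.Agent.Y924.UF.Scat
import Pool.Agent.Y155.UF.Fin2
import Pool.Agent.Y431.UF.Cmpa

/-!
# Project SO (MP_db9079_lc): second-order arithmetic in F_p((t)) with an infinite scattered set

Definitions and statements of the parts (helper14). The formulas of the field are `Fm`, `Sat`, the
valuation ring is `OO p`; `OT (p + 1) τ z` means `z ∈ O` if `τ = t` (starting files: `S_VAL`),
`HH τ p z` means `z_0 = 0` (coefficient of `t ^ 0`) if `τ = t` (`S_RES`).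
-/

set_option autoImplicit false

namespace Pool.Agent.Helper14K9.SO

open Function
open Pool.Agent.Y924.EL Pool.Agent.Y924.EL.Tp Pool.Agent.Y924.UF

section

variable (p : ℕ) [Fact p.Prime]

/-- the first-order condition for finiteness -/
def FinC (τ : LaurentSeries (ZMod p)) (X : Set (LaurentSeries (ZMod p))) : Prop :=
  ∃ b c : LaurentSeries (ZMod p), b ≠ 0 ∧ c ≠ 0 ∧ (∀ x, x ∈ X → ∃ z, OT (p + 1) τ z ∧ c * z = x) ∧
    ∀ x y, x ∈ X → y ∈ X → (∃ z y', OT (p + 1) τ z ∧ b * z = y' ∧ y' + y = x) → x = y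

/-- the values of the relation coded by `S` (`(x, y)` is in the relation if `x ^ p + τ y ^ p` is in
`S`) at the points of the ball `x + r O` -/
def Vals (S : Set (LaurentSeries (ZMod p))) (τ r x : LaurentSeries (ZMod p)) :
    Set (LaurentSeries (ZMod p)) :=
  {y | ∃ x', (∃ z, OT (p + 1) τ z ∧ x + r * z = x') ∧ x' ^ p + τ * y ^ p ∈ S}

/-- `F_r`: the values `a` of the relation at the points `x` in the ball `r⁻¹ O` such that the
relation has finitely many values at the points of `x + r O` -/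
def InF (S : Set (LaurentSeries (ZMod p))) (τ r a : LaurentSeries (ZMod p)) : Prop :=
  ∃ x, OT (p + 1) τ (x * r) ∧ x ^ p + τ * a ^ p ∈ S ∧ FinC p τ (Vals p S τ r x)

/-- `H_r`: the double orthogonal complement of the elements of `F_r` and their inverses, for the
pairing `(c y)_0`; it is the `F_p`-span of this finite set -/
def InH (S : Set (LaurentSeries (ZMod p))) (τ r y : LaurentSeries (ZMod p)) : Prop :=
  ∀ c, (∀ a, InF p S τ r a → HH τ p (c * a) ∧ ∀ a', a * a' = 1 → HH τ p (c * a')) →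
    HH τ p (c * y)

/-- `x` is not in `y O`: the order of `x` is less than the order of `y` -/
def Lt (τ x y : LaurentSeries (ZMod p)) : Prop := ¬ ∃ z, OT (p + 1) τ z ∧ y * z = x

/-- `g ∈ H_r` is an approximation of `s` which is better than the distances in `H_r` -/
def InQ (S : Set (LaurentSeries (ZMod p))) (τ s g : LaurentSeries (ZMod p)) : Prop :=
  g ≠ s ∧ ∃ r, r ≠ 0 ∧ InH p S τ r g ∧ ∀ h, InH p S τ r h → h ≠ 0 → Lt p τ h (s - g)

/-- `x` is an approximation before `g` -/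
def InX (S : Set (LaurentSeries (ZMod p))) (τ s g x : LaurentSeries (ZMod p)) : Prop :=
  InQ p S τ s x ∧ Lt p τ (s - x) (s - g)

/-- membership: the coefficient of `t ^ 0` in `c / (s - g)` is not zero -/
def Me (τ s g c : LaurentSeries (ZMod p)) : Prop := ∃ z, z * (s - g) = c ∧ ¬ HH τ p z

/-- the first-order condition for the parameters `τ, s` (and those of `S`) -/
def Good (S : Set (LaurentSeries (ZMod p))) (τ s : LaurentSeries (ZMod p)) : Prop :=
  Gd p τ ∧ OT (p + 1) τ 1 ∧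
  (∀ x y, OT (p + 1) τ x → OT (p + 1) τ y → OT (p + 1) τ (x * y)) ∧
  ¬ HH τ p 1 ∧ (∀ z, ∃ e, e ^ p = e ∧ HH τ p (z + e)) ∧
  (∀ g g', InQ p S τ s g → InQ p S τ s g' → ¬ Lt p τ (s - g) (s - g') →
    ¬ Lt p τ (s - g') (s - g) → g = g') ∧
  (∀ g, InQ p S τ s g → FinC p τ {x | InX p S τ s g x}) ∧
  (∃ g, InQ p S τ s g) ∧ ∀ g, InQ p S τ s g → ∃ g', InQ p S τ s g' ∧ Lt p τ (s - g) (s - g')

end

/-! ## Leaves on the field -/

/-- [BALL] (from `S_ROOT`; tools: Y155/UF/Fin2: good_ne, good_order, order_T, order_neg, bound).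
Proof: for `z ≠ 0`, `OT (p + 1) τ z` iff `0 < ord τ + (p + 1) ord z` (not `0` by good_order; not
negative by bound; if positive then `1 + τ z ^ (p + 1)` is a `(p + 1)`-st power by `S_ROOT`).
`z = 1`: `0 < ord τ`. If `ord τ > p + 1` then `t⁻¹`, hence all its powers are in, contradiction. -/
def S_BALL : Prop := ∀ (p : ℕ) [Fact p.Prime] (τ : LaurentSeries (ZMod p)), Gd p τ →
  OT (p + 1) τ 1 → (∀ x y, OT (p + 1) τ x → OT (p + 1) τ y → OT (p + 1) τ (x * y)) →
  ∀ z, OT (p + 1) τ z ↔ z ∈ OO p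

/-- [LAM] `{z | HH τ p z}` is an additive subgroup (Frobenius), it contains `w ^ p - w` for all `w`,
hence all `z` in the maximal ideal (Artin-Schreier: `w_n = w_(n/p) - z_n`; see Y15/UF/Res.lean); by
the hypotheses it has index `p` with the complement `F_p` (the roots of `e ^ p = e` are the
constants). `lam z` is the constant `a` with `HH τ p (z - a)`. -/
def S_LAM : Prop := ∀ (p : ℕ) [Fact p.Prime] (τ : LaurentSeries (ZMod p)), ¬ HH τ p 1 →
  (∀ z, ∃ e, e ^ p = e ∧ HH τ p (z + e)) → ∃ lam : LaurentSeries (ZMod p) →+ ZMod p,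
    (∀ z, HH τ p z ↔ lam z = 0) ∧ (∀ z, (∀ n : ℤ, n ≤ 0 → z.coeff n = 0) → lam z = 0) ∧ lam 1 ≠ 0

/-- [COD2] `c = ∑ ε_n t ^ (d n)`, `ε_n` in `F_p` chosen one after the other: `t ^ (d n) x_n` has
order `0` with a nonzero constant coefficient `u_n`, so `lam (ε t ^ (d n) x_n) = ε u_n lam 1`, and
the later terms do not matter. -/
def S_COD2 : Prop := ∀ (p : ℕ) [Fact p.Prime] (lam : LaurentSeries (ZMod p) →+ ZMod p),
  (∀ z, (∀ n : ℤ, n ≤ 0 → z.coeff n = 0) → lam z = 0) → lam 1 ≠ 0 →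
  ∀ (x : ℕ → LaurentSeries (ZMod p)) (d : ℕ → ℤ), StrictMono d →
  (∀ n, x n ≠ 0 ∧ HahnSeries.order (x n) = - d n) → ∀ A : Set ℕ, ∃ c, ∀ n,
    (lam (c * x n) ≠ 0 ↔ n ∈ A)

/-- [ENU] enumeration -/
def S_ENU : Prop := ∀ (K : Type) (Q : Set K) (d : K → ℤ), Set.InjOn d Q →
  (∀ g ∈ Q, {x | x ∈ Q ∧ d x < d g}.Finite) → Q.Nonempty → (∀ g ∈ Q, ∃ g' ∈ Q, d g < d g') →
  ∃ e : ℕ → K, (∀ n, e n ∈ Q) ∧ (∀ g ∈ Q, ∃ n, e n = g) ∧ StrictMono (fun n => d (e n)) ∧
    ∀ n, {x | x ∈ Q ∧ d x < d (e n)}.ncard = n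

/-- [DUAL] the double orthogonal complement of a finite set is finite (it is its span; the pairing
is nondegenerate, see `lam_nondeg` in Y924/UF/Lem.lean and Y528/UF/Cod.lean). -/
def S_DUAL : Prop := ∀ (p : ℕ) [Fact p.Prime] (F : Set (LaurentSeries (ZMod p))), F.Finite →
  {y : LaurentSeries (ZMod p) | ∀ c : LaurentSeries (ZMod p),
    (∀ a ∈ F, (c * a).coeff 0 = 0) → (c * y).coeff 0 = 0}.Finite

/-- the values of the relation coded by `S` at the points of the ball `x + b O` -/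
def ValB (p : ℕ) [Fact p.Prime] (S : Set (LaurentSeries (ZMod p)))
    (b x : LaurentSeries (ZMod p)) : Set (LaurentSeries (ZMod p)) :=
  {y | ∃ z, z ∈ OO p ∧ (x + b * z) ^ p + HahnSeries.single (1 : ℤ) (1 : ZMod p) * y ^ p ∈ S}

/-- the locally finite values of the relation coded by `S` -/
def LFS (p : ℕ) [Fact p.Prime] (S : Set (LaurentSeries (ZMod p))) :
    Set (LaurentSeries (ZMod p)) :=
  {y | ∃ x, x ^ p + HahnSeries.single (1 : ℤ) (1 : ZMod p) * y ^ p ∈ S ∧
    ∃ b : LaurentSeries (ZMod p), b ≠ 0 ∧ (ValB p S b x).Finite}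

/-- the properties of the groups `H_r`, `N = ord r` -/
def HProp (p : ℕ) [Fact p.Prime] (H : ℤ → Set (LaurentSeries (ZMod p))) : Prop :=
  (∀ N, (H N).Finite) ∧ (∀ N, (0 : LaurentSeries (ZMod p)) ∈ H N) ∧
  (∀ N x y, x ∈ H N → y ∈ H N → x - y ∈ H N) ∧ Monotone H ∧
  ∀ M : ℤ, ∃ N, ∃ h ∈ H N, h ≠ 0 ∧ M ≤ HahnSeries.order h

/-- [HS] (from `S_DUAL`, `S_VAL`, `S_RES`, `S_FIN`, `S_FIN2`.) For `τ = t` and `N = ord r`: `FinC p t X`
is finiteness (`S_FIN2` with `Gd p t` from `S_VAL`; `S_FIN` and `S_VAL`), and `InF p S t r a` says: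
there is an `x` of order `≥ - N` with `(x, a)` in the relation and `ValB p S (t ^ N) x` finite. These
`a` are finitely many (finitely many balls `x + t ^ N O` in `t ^ (-N) O`), they increase with `N`, and
every element of `LFS p S` is one of them for large `N`. `H N` is the set of the `y` with
`InH p S t (t ^ N) y`. Last part: if no `h ≠ 0` in a group `H N` has order `≥ M`, then all differences
of elements of `LFS p S` have order `< M`; as there are infinitely many, they are not bounded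
(finitely many classes modulo `t ^ M O` in a ball), so there is one, `a ≠ 0`, with `ord a ≤ - M`, and
its inverse is in a group `H N`. -/
def S_HS : Prop := ∀ (p : ℕ) [Fact p.Prime] (S : Set (LaurentSeries (ZMod p))),
  (LFS p S).Infinite → ∃ H : ℤ → Set (LaurentSeries (ZMod p)), HProp p H ∧
    ∀ r : LaurentSeries (ZMod p), r ≠ 0 → ∀ y,
      (InH p S (HahnSeries.single (1 : ℤ) (1 : ZMod p)) r y ↔ y ∈ H (HahnSeries.order r))

/-- the good approximations of `s` -/
def QQ (p : ℕ) [Fact p.Prime] (H : ℤ → Set (LaurentSeries (ZMod p))) (s : LaurentSeries (ZMod p)) :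
    Set (LaurentSeries (ZMod p)) :=
  {g | g ≠ s ∧ ∃ N, g ∈ H N ∧ ∀ h ∈ H N, h ≠ 0 → HahnSeries.order h < HahnSeries.order (s - g)}

/-- [SER] `s = ∑ h_k`, `h_k ≠ 0` in `H (N k)`, `N k` increasing, the order of `h_(k+1)` larger than
the orders of all nonzero elements of `H (N k)`. The partial sums are in `QQ`. Injectivity: if
`g ≠ g'` are both in the larger of the two groups then `h = g - g'` has order less than `ord (s - g')`
for that one. Finiteness: elements of `QQ` with a group containing `h_0` have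
`ord (s - x) > ord h_0`, the others are in the finite group `H (N 0)`. -/
def S_SER : Prop := ∀ (p : ℕ) [Fact p.Prime] (H : ℤ → Set (LaurentSeries (ZMod p))), HProp p H →
  ∃ s : LaurentSeries (ZMod p), Set.InjOn (fun g => HahnSeries.order (s - g)) (QQ p H s) ∧
    (∀ g ∈ QQ p H s, {x | x ∈ QQ p H s ∧
      HahnSeries.order (s - x) < HahnSeries.order (s - g)}.Finite) ∧
    (QQ p H s).Nonempty ∧
    ∀ g ∈ QQ p H s, ∃ g' ∈ QQ p H s, HahnSeries.order (s - g) < HahnSeries.order (s - g')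

/-- [EXI] good parameters exist (from `S_HS`, `S_SER`, `S_VAL`, `S_RES`, `S_FIN`) -/
def S_EXI : Prop := ∀ (p : ℕ) [Fact p.Prime] (S : Set (LaurentSeries (ZMod p))),
  (LFS p S).Infinite → ∃ s, Good p S (HahnSeries.single (1 : ℤ) (1 : ZMod p)) s

/-- the enumeration of the approximations, with all properties -/
def EnumS (p : ℕ) [Fact p.Prime] (S : Set (LaurentSeries (ZMod p))) (τ s : LaurentSeries (ZMod p))
    (e : ℕ → LaurentSeries (ZMod p)) : Prop :=
  (∀ n, InQ p S τ s (e n)) ∧ (∀ g, InQ p S τ s g → ∃ n, e n = g) ∧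
  (∀ n, {x | InX p S τ s (e n) x}.Finite ∧ {x | InX p S τ s (e n) x}.ncard = n) ∧
  ∀ A : Set ℕ, ∃ c, ∀ n, (Me p τ s (e n) c ↔ n ∈ A)

/-- [FULL] (from `S_BALL`, `S_LAM`, `S_COD2`, `S_ENU`, `S_FIN2`) -/
def S_FULL2 : Prop := ∀ (p : ℕ) [Fact p.Prime] (S : Set (LaurentSeries (ZMod p)))
  (τ s : LaurentSeries (ZMod p)), Good p S τ s → ∃ e, EnumS p S τ s e

/-! ## The translation -/

/-- the formula for the block `b` of variables (the variable 0 is not changed) -/
def bR (W b : ℕ) (φ : Fm) : Fm := ren (sgB W b) φ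

/-- the `j`-th variables of the blocks `b` and `0` are equal -/
def eqB (W b j : ℕ) : Fm := .ex 0 (.and (bR W b (.eq 0 j)) (bR W 0 (.eq 0 j)))

/-- the blocks `b` and `0` agree on the variables `1, ..., n - 1` other than `ng`, and `φ` -/
def eqs (W ng b : ℕ) : ℕ → Fm → Fm
  | 0, φ => φ
  | j + 1, φ => eqs W ng b j (if j = 0 ∨ j = ng then φ else .and (eqB W b j) φ)

/-- the block `b` is a number -/
def numF (W ng : ℕ) (Q : Fm) (b : ℕ) : Fm := eqs W ng b W (bR W b Q)

/-- the translation: the number variable `i` is the block `2 i + 1`, the set variable `i` is the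
first variable of the block `2 i + 2` -/
def trS (p W ng : ℕ) (X Q M : Fm) : SF → Fm
  | .eq i j => .ex 0 (.and (bR W (2 * i + 1) (.eq 0 ng)) (bR W (2 * j + 1) (.eq 0 ng)))
  | .one i => bas TOne W X (2 * i + 1) (2 * i + 1) (2 * i + 1)
  | .add i j k => bas (TAdd p) W X (2 * i + 1) (2 * j + 1) (2 * k + 1)
  | .mul i j k => bas (TMul p) W X (2 * i + 1) (2 * j + 1) (2 * k + 1)
  | .mem i j => .ex 0 (.and (bR W (2 * j + 2) (.eq 0 1)) (bR W (2 * i + 1) M))
  | .neg ψ => .neg (trS p W ng X Q M ψ)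
  | .and ψ χ => .and (trS p W ng X Q M ψ) (trS p W ng X Q M χ)
  | .exN i ψ => exR (100 + W * (2 * i + 1)) W
      (.and (numF W ng Q (2 * i + 1)) (trS p W ng X Q M ψ))
  | .exS i ψ => .ex (100 + W * (2 * i + 2) + 1) (trS p W ng X Q M ψ)

/-- the meaning of the three formulas: `φ` defines `S` with the parameters `x_1, ..., x_(V-1)`,
`τ = x_V`, `s = x_(V+1)`, `g = x_(V+2)` -/
def Means (p : ℕ) [Fact p.Prime] (P : Set (LaurentSeries (ZMod p))) (φ : Fm) (V : ℕ)
    (X Q M : Fm) : Prop :=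
  ∀ v : ℕ → LaurentSeries (ZMod p),
    (Sat P X v ↔ InX p (DefP P φ v) (v V) (v (V + 1)) (v (V + 2)) (v 0)) ∧
    (Sat P Q v ↔ InQ p (DefP P φ v) (v V) (v (V + 1)) (v (V + 2))) ∧
    (Sat P M v ↔ Me p (v V) (v (V + 1)) (v (V + 2)) (v 0))

/-- [TRS] semantics of the translation, by induction on `ψ` (from `S_BAS`, `S_EXR`, `S_REN`; like
Y657/UF/Ind.lean). `u` is the block 0 (the parameters). -/
def S_TRS : Prop := ∀ (p : ℕ) [Fact p.Prime] (P : Set (LaurentSeries (ZMod p))) (φ : Fm)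
  (V W : ℕ) (X Q M : Fm), 1 ≤ V → Below V φ → V + 3 ≤ W → Below W X → Below W Q → Below W M →
  Means p P φ V X Q M → ∀ (u e : ℕ → LaurentSeries (ZMod p)),
    EnumS p (DefP P φ u) (u V) (u (V + 1)) e →
  ∀ (ψ : SF) (v : ℕ → LaurentSeries (ZMod p)) (n : ℕ → ℕ) (A : ℕ → Set ℕ),
    (∀ j, 1 ≤ j → j < W → v (100 + j) = u j) →
    (∀ i ∈ ψ.fvN, (∀ j, 1 ≤ j → j < W → j ≠ V + 2 → v (100 + W * (2 * i + 1) + j) = u j) ∧
      v (100 + W * (2 * i + 1) + (V + 2)) = e (n i)) →
    (∀ i ∈ ψ.fvS, ∀ k, (Me p (u V) (u (V + 1)) (e k) (v (100 + W * (2 * i + 2) + 1)) ↔ k ∈ A i)) →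
    (Sat P (trS p W (V + 2) X Q M ψ) v ↔ Tr ψ n A)

/-- [TRC] the translation is primitive recursive on codes (from `S_REC`, `S_CMPA`, `S_CMPB`,
`prim_ren`; like Y931/UF/TCMP.lean; the case 7 depends on the parity of the first component) -/
def S_TRC : Prop := ∀ (p W ng : ℕ) (X Q M : Fm), ∃ F : ℕ → ℕ, Primrec F ∧
  ∀ ψ : SF, F ψ.code = (trS p W ng X Q M ψ).code

/-- [FVC] closing all variables below the code closes the formula -/
def S_FVC : Prop := (∀ (χ : Fm) (N : ℕ), χ.code < N → (exR 0 N χ).fv = ∅) ∧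
  Primrec fun m : ℕ => exRc 0 m.unpair.1 m.unpair.2

/-- [FOR] the formulas exist -/
def S_FOR : Prop := ∀ (p : ℕ) [Fact p.Prime] (P : Set (LaurentSeries (ZMod p))) (φ : Fm) (V : ℕ),
  1 ≤ V → Below V φ → ∃ X Q M G : Fm, Means p P φ V X Q M ∧
    ∀ v, (Sat P G v ↔ Good p (DefP P φ v) (v V) (v (V + 1)))

end Pool.Agent.Helper14K9.SO
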